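import Pool.Agent.N62.AG.Stm

/-! Project AG (helper62), task NS (helper78): nonsingularity by divisors. -/

set_option autoImplicit false

namespace Pool.Agent.N78.AG.NS

open Pool.Agent.N62.AG Finset

theorem nr_zero {p n : ℕ} (h : IsSquare (n : ZMod p)) : nr p n = 0 := by
  unfold nr
  exact if_pos h

theorem nr_one {p n : ℕ} (h : ¬ IsSquare (n : ZMod p)) : nr p n = 1 := by
  unfold nr
  exact if_neg h

theorem nr_cases (p n : ℕ) : nr p n = 0 ∨ nr p n = 1 := by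
  by_cases h : IsSquare (n : ZMod p)
  · exact Or.inl (nr_zero h)
  · exact Or.inr (nr_one h)

theorem qn_iff {p n : ℕ} (hp : p.Prime) : qn p n ↔ nr p n = 1 := by
  have : Fact p.Prime := ⟨hp⟩
  have key : (∃ x < p, x * x % p = n % p) ↔ IsSquare (n : ZMod p) := by
    constructor
    · rintro ⟨x, hx, h⟩
      refine ⟨(x : ZMod p), ?_⟩
      rw [← Nat.cast_mul, ZMod.natCast_eq_natCast_iff']
      exact h.symm
    · rintro ⟨r, hr⟩
      refine ⟨r.val, ZMod.val_lt r, ?_⟩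
      rw [← ZMod.natCast_eq_natCast_iff', Nat.cast_mul, ZMod.natCast_zmod_val]
      exact hr.symm
  unfold qn
  constructor
  · intro h
    apply nr_one
    rw [← key]
    rintro ⟨x, hx, hx'⟩
    exact h x hx hx'
  · intro h x hx hx'
    rw [nr_zero (key.1 ⟨x, hx, hx'⟩)] at h
    exact absurd h (by decide)

theorem nr_mul {p : ℕ} (hp : p.Prime) (hp2 : p ≠ 2) {a b : ℕ} (ha : (a : ZMod p) ≠ 0)
    (hb : (b : ZMod p) ≠ 0) : nr p (a * b) = nr p a + nr p b := by
  have : Fact p.Prime := ⟨hp⟩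
  have hval : ∀ n : ℕ, (n : ZMod p) ≠ 0 →
      (nr p n = 0 ∧ quadraticChar (ZMod p) (n : ZMod p) = 1) ∨
      (nr p n = 1 ∧ quadraticChar (ZMod p) (n : ZMod p) = -1) := by
    intro n hn
    by_cases h : IsSquare (n : ZMod p)
    · exact Or.inl ⟨nr_zero h, (quadraticChar_one_iff_isSquare hn).2 h⟩
    · exact Or.inr ⟨nr_one h, quadraticChar_neg_one_iff_not_isSquare.2 h⟩
  have hab : ((a * b : ℕ) : ZMod p) ≠ 0 := by
    rw [Nat.cast_mul]
    exact mul_ne_zero ha hb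
  have hm : quadraticChar (ZMod p) ((a * b : ℕ) : ZMod p) =
      quadraticChar (ZMod p) (a : ZMod p) * quadraticChar (ZMod p) (b : ZMod p) := by
    rw [Nat.cast_mul, map_mul]
  rcases hval a ha with ⟨a1, a2⟩ | ⟨a1, a2⟩ <;> rcases hval b hb with ⟨b1, b2⟩ | ⟨b1, b2⟩ <;>
    rcases hval _ hab with ⟨c1, c2⟩ | ⟨c1, c2⟩ <;> rw [a2, b2, c2] at hm <;> rw [a1, b1, c1] <;>
    first
      | decide
      | exact absurd hm (by decide)

theorem cast_ne {p q : ℕ} (hp : p.Prime) (hq : q.Prime) (h : q ≠ p) : (q : ZMod p) ≠ 0 := by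
  rw [Ne, ZMod.natCast_eq_zero_iff]
  intro hd
  exact h ((Nat.prime_dvd_prime_iff_eq hp hq).1 hd).symm

theorem prod_ne {p : ℕ} (hp : p.Prime) (T : Finset ℕ) (hT : ∀ q ∈ T, q.Prime ∧ q ≠ p) :
    ((∏ q ∈ T, q : ℕ) : ZMod p) ≠ 0 := by
  have : Fact p.Prime := ⟨hp⟩
  rw [Nat.cast_prod, Finset.prod_ne_zero_iff]
  intro q hq
  exact cast_ne hp (hT q hq).1 (hT q hq).2

theorem nr_prod {p : ℕ} (hp : p.Prime) (hp2 : p ≠ 2) (T : Finset ℕ)
    (hT : ∀ q ∈ T, q.Prime ∧ q ≠ p) : nr p (∏ q ∈ T, q) = ∑ q ∈ T, nr p q := by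
  classical
  induction T using Finset.induction_on with
  | empty =>
    rw [Finset.prod_empty, Finset.sum_empty]
    exact nr_zero ⟨1, by simp⟩
  | insert q T hq ih =>
    rw [Finset.prod_insert hq, Finset.sum_insert hq, nr_mul hp hp2
      (cast_ne hp (hT q (by simp)).1 (hT q (by simp)).2)
      (prod_ne hp T fun q' h => hT q' (by simp [h])), ih fun q' h => hT q' (by simp [h])]

theorem nr_self {p : ℕ} : nr p p = 0 := nr_zero ⟨0, by simp⟩

/-- the support of a vector -/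
def Tx (N : ℕ) (x : ℕ → ZMod 2) : Finset ℕ :=
  N.primeFactors.filter (fun q => q % 8 = 1 ∧ x q = 1)

theorem z2 (a : ZMod 2) : a = 0 ∨ a = 1 := by
  revert a
  decide

theorem sum_cu (N p : ℕ) (x : ℕ → ZMod 2) :
    ∑ q ∈ N.primeFactors, nr p q * cu x q = ∑ q ∈ Tx N x, nr p q := by
  unfold Tx
  rw [Finset.sum_filter]
  refine Finset.sum_congr rfl fun q _ => ?_
  unfold cu
  by_cases h1 : q % 8 = 1
  · rcases z2 (x q) with h2 | h2
    · rw [if_pos h1, h2, if_neg (fun h => absurd h.2 (by decide)), mul_zero]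
    · rw [if_pos h1, h2, if_pos ⟨h1, rfl⟩, mul_one]
  · rw [if_neg h1, if_neg (fun h => h1 h.1), mul_zero]

/-- the rows -/
theorem row_iff {N : ℕ} (hN : Squarefree N) (hN2 : N % 2 = 1) (x : ℕ → ZMod 2) {p : ℕ}
    (hp : p ∈ N.primeFactors) (hp8 : p % 8 = 1) :
    row N p (∏ q ∈ Tx N x, q) ↔
      ∑ q ∈ N.primeFactors, nr p q * (cu x q + x p) + ff p * x p = 1 := by
  classical
  have hpp : p.Prime := Nat.prime_of_mem_primeFactors hp
  have hp2 : p ≠ 2 := by
    rintro rfl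
    omega
  have hprod : ∀ T : Finset ℕ, (∀ q ∈ T, q.Prime) → (p ∣ ∏ q ∈ T, q ↔ p ∈ T) := by
    intro T hT
    constructor
    · intro h
      obtain ⟨q, hq, hd⟩ := (hpp.prime.dvd_finsetProd_iff _).1 h
      rwa [(Nat.prime_dvd_prime_iff_eq hpp (hT q hq)).1 hd]
    · intro h
      exact Finset.dvd_prod_of_mem _ h
  have hTp : ∀ q ∈ Tx N x, q.Prime := fun q hq =>
    Nat.prime_of_mem_primeFactors (Finset.mem_filter.1 hq).1
  have hmem : p ∈ Tx N x ↔ x p = 1 := by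
    unfold Tx
    rw [Finset.mem_filter]
    exact ⟨fun h => h.2.2, fun h => ⟨hp, hp8, h⟩⟩
  have hsum : ∑ q ∈ N.primeFactors, nr p q * (cu x q + x p) =
      ∑ q ∈ Tx N x, nr p q + x p * ∑ q ∈ N.primeFactors, nr p q := by
    rw [← sum_cu, Finset.mul_sum, ← Finset.sum_add_distrib]
    refine Finset.sum_congr rfl fun q _ => ?_
    ring
  rw [hsum]
  unfold row
  rcases z2 (x p) with h0 | h1
  · have hnm : p ∉ Tx N x := by
      rw [hmem, h0]
      decide
    have hnd : ¬ p ∣ ∏ q ∈ Tx N x, q := by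
      rw [hprod _ hTp]
      exact hnm
    have hT' : ∀ q ∈ Tx N x, q.Prime ∧ q ≠ p := fun q hq =>
      ⟨hTp q hq, fun h => hnm (h ▸ hq)⟩
    rw [h0, zero_mul, mul_zero, add_zero, add_zero, ← nr_prod hpp hp2 _ hT', ← qn_iff hpp]
    constructor
    · rintro (⟨-, h⟩ | ⟨h, -⟩)
      · exact h
      · exact absurd h hnd
    · intro h
      exact Or.inl ⟨hnd, h⟩
  · have hm : p ∈ Tx N x := hmem.2 h1
    have hd : p ∣ ∏ q ∈ Tx N x, q := (hprod _ hTp).2 hm
    have hdiv : ∀ T : Finset ℕ, p ∈ T → (∏ q ∈ T, q) / p = ∏ q ∈ T.erase p, q := by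
      intro T hT
      rw [← Finset.mul_prod_erase T (fun q => q) hT, Nat.mul_div_cancel_left _ hpp.pos]
    have hN' : ∏ q ∈ N.primeFactors, q = N := Nat.prod_primeFactors_of_squarefree hN
    have hs : ∀ T : Finset ℕ, p ∈ T → (∀ q ∈ T, q.Prime) →
        ∑ q ∈ T, nr p q = nr p ((∏ q ∈ T, q) / p) := by
      intro T hT hTp
      rw [hdiv T hT, nr_prod hpp hp2 _ (fun q hq => ⟨hTp q (Finset.mem_of_mem_erase hq),
        Finset.ne_of_mem_erase hq⟩), ← Finset.add_sum_erase T (fun q => nr p q) hT, nr_self,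
        zero_add]
    have hne : ∀ T : Finset ℕ, p ∈ T → (∀ q ∈ T, q.Prime) →
        (((∏ q ∈ T, q) / p : ℕ) : ZMod p) ≠ 0 := by
      intro T hT hTp
      rw [hdiv T hT]
      exact prod_ne hpp _ (fun q hq => ⟨hTp q (Finset.mem_of_mem_erase hq),
        Finset.ne_of_mem_erase hq⟩)
    have hNp : ∀ q ∈ N.primeFactors, q.Prime := fun q hq => Nat.prime_of_mem_primeFactors hq
    have e1 := hs _ hm hTp
    have e2 := hs _ hp hNp
    have n1 := hne _ hm hTp
    have n2 := hne _ hp hNp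
    rw [hN'] at e2 n2
    rw [h1, one_mul, mul_one, e1, e2, ← nr_mul hpp hp2 n1 n2]
    have e3 : e8 p ↔ ff p = 0 := by
      unfold e8 ff
      by_cases h : 8 ∣ cnt p (p * p) + 1
      · simp [h]
      · simp [h]
    have e4 : ¬ e8 p ↔ ff p = 1 := by
      rw [e3]
      rcases z2 (ff p) with h | h <;> rw [h] <;> decide
    have e5 := qn_iff (n := (∏ q ∈ Tx N x, q) / p * (N / p)) hpp
    have e6 : ¬ qn p ((∏ q ∈ Tx N x, q) / p * (N / p)) ↔
        nr p ((∏ q ∈ Tx N x, q) / p * (N / p)) = 0 := by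
      rw [e5]
      rcases z2 (nr p ((∏ q ∈ Tx N x, q) / p * (N / p))) with h | h <;> rw [h] <;> decide
    rw [e4, e6, e5, e3]
    generalize nr p ((∏ q ∈ Tx N x, q) / p * (N / p)) = u
    generalize ff p = v
    constructor
    · rintro (⟨h, -⟩ | ⟨-, ⟨hu, hv⟩ | ⟨hu, hv⟩⟩)
      · exact absurd hd h
      · rw [hu, hv, add_zero]
      · rw [hu, hv, zero_add]
    · intro h
      refine Or.inr ⟨hd, ?_⟩
      revert h
      revert u v
      decide

theorem t : S_NS := by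
  classical
  intro N hN hN2
  have hN0 : N ≠ 0 := hN.ne_zero
  have hN' : ∏ q ∈ N.primeFactors, q = N := Nat.prod_primeFactors_of_squarefree hN
  constructor
  · intro hns x hx p hp hp8
    by_contra hne
    have hxp : x p = 1 := (z2 (x p)).resolve_left hne
    have hmem : p ∈ Tx N x := Finset.mem_filter.2 ⟨hp, hp8, hxp⟩
    have hpp : p.Prime := Nat.prime_of_mem_primeFactors hp
    have hd : p ∣ ∏ q ∈ Tx N x, q := Finset.dvd_prod_of_mem _ hmem
    have hmN : ∏ q ∈ Tx N x, q ∣ N := by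
      conv_rhs => rw [← hN']
      exact Finset.prod_dvd_prod_of_subset _ _ _ (Finset.filter_subset _ _)
    obtain ⟨p', -, ⟨hp', hp'N, hp'8⟩, hrow⟩ := hns (∏ q ∈ Tx N x, q)
      (Nat.lt_succ_of_le (Nat.le_of_dvd (Nat.pos_of_ne_zero hN0) hmN)) ⟨hmN, fun h1 => by
        rw [h1] at hd
        exact hpp.one_lt.ne' (Nat.dvd_one.1 hd), fun q _ hq => by
        obtain ⟨q', hq', hd'⟩ := (hq.1.prime.dvd_finsetProd_iff _).1 hq.2
        have hq'p := Nat.prime_of_mem_primeFactors (Finset.mem_filter.1 hq').1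
        rw [(Nat.prime_dvd_prime_iff_eq hq.1 hq'p).1 hd']
        exact (Finset.mem_filter.1 hq').2.1⟩
    have hp'm : p' ∈ N.primeFactors := Nat.mem_primeFactors.2 ⟨hp', hp'N, hN0⟩
    rw [row_iff hN hN2 x hp'm hp'8, hx p' hp'm hp'8] at hrow
    exact absurd hrow (by decide)
  · intro h m hm ⟨hmN, hm1, hm8⟩
    have hm0 : m ≠ 0 := fun h0 => hN0 (by rw [h0] at hmN; exact Nat.eq_zero_of_zero_dvd hmN)
    set x : ℕ → ZMod 2 := fun p => if p ∣ m then 1 else 0 with hx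
    have hT : Tx N x = m.primeFactors := by
      unfold Tx
      ext q
      rw [Finset.mem_filter, Nat.mem_primeFactors, Nat.mem_primeFactors]
      constructor
      · rintro ⟨⟨hq, -, -⟩, -, hxq⟩
        refine ⟨hq, ?_, hm0⟩
        by_contra hnd
        rw [hx] at hxq
        simp [hnd] at hxq
      · rintro ⟨hq, hqm, -⟩
        refine ⟨⟨hq, hqm.trans hmN, hN0⟩, hm8 q ?_ ⟨hq, hqm⟩, ?_⟩
        · exact Nat.lt_succ_of_le (Nat.le_of_dvd (Nat.pos_of_ne_zero hN0) (hqm.trans hmN))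
        · simp [hx, hqm]
    have hprod : ∏ q ∈ Tx N x, q = m := by
      rw [hT]
      exact Nat.prod_primeFactors_of_squarefree (hN.squarefree_of_dvd hmN)
    by_contra hcon
    push Not at hcon
    obtain ⟨p₀, hp₀, hp₀m⟩ := Nat.exists_prime_and_dvd hm1
    have hlt : p₀ < N + 1 := Nat.lt_succ_of_le (Nat.le_of_dvd (Nat.pos_of_ne_zero hN0)
      (hp₀m.trans hmN))
    have h8 := hm8 p₀ hlt ⟨hp₀, hp₀m⟩
    have hz := h x (fun p hp hp8 => by
      have hpp := Nat.prime_of_mem_primeFactors hp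
      have hpN := Nat.dvd_of_mem_primeFactors hp
      have h1 := hcon p (Nat.lt_succ_of_le (Nat.le_of_dvd (Nat.pos_of_ne_zero hN0) hpN))
        ⟨hpp, hpN, hp8⟩
      rw [← hprod, row_iff hN hN2 x hp hp8] at h1
      exact (z2 _).resolve_right h1) p₀
      (Nat.mem_primeFactors.2 ⟨hp₀, hp₀m.trans hmN, hN0⟩) h8
    rw [hx] at hz
    simp [hp₀m] at hz

end Pool.Agent.N78.AG.NS
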